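import Pool.Agent.ATP.Stmts
import Pool.Agent.Helper94_PP.Nch

/-!
# Squad ATP, row PEX: existence of the pair below
-/

set_option autoImplicit false

noncomputable section

namespace Pool.Agent.PP.TP.H32

open Pool.Agent.Helper51_AWC Pool.Agent.Helper79_WRA Pool.Agent.PP Pool.Agent.PP.KF
open Pool.Agent.PP.K9 Pool.Agent.PP.K9.H97 Pool.Agent.PP.H75 Pool.Agent.PP.T3 Pool.Agent.PP.T2
open Pool.Agent.PP.TB

/-- PEX -/
theorem pex (np1 : Np1Stmt) (pcj : PcjStmt) : PexStmt := by
  intro ℓ F _ hF G _ _ P c hP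
  have : Fact ℓ.Prime := ⟨hF.prime⟩
  intro Q
  induction Q using WellFoundedGT.induction with
  | ind Q ih =>
    intro hQP
    have hQg : IsPGroup ℓ Q := hP.pg.to_le hQP
    rcases eq_or_lt_of_le hQP with rfl | hlt
    · refine ⟨c, hP, Le.refl, fun hn => ⟨le_rfl, hn, ?_, ?_⟩⟩
      · intro x hx
        exact (pcj ℓ F G x).2.2.2 Q c hP (Subgroup.mem_sup_left hx)
      · have h2 : br Q c = c := by
          funext t
          by_cases ht : t ∈ Subgroup.centralizer (Q : Set G)
          · exact br_in c ht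
          · rw [br_out c ht, hP.blk.supp t ht]
        rw [h2]
        exact hP.blk.ix.mul
    · by_cases hn : P ≤ Subgroup.normalizer (Q : Set G)
      · obtain ⟨b, hb, hbn, _⟩ := np1 ℓ F hF G Q P hP.pg hQP hn c hP.blk
        have hbP : Pq ℓ Q b := ⟨hQg, hb⟩
        exact ⟨b, hbP, Le.one hbP hP hbn, fun _ => hbn⟩
      · obtain ⟨x, hxP, hxQ, hxN⟩ := H94.grow hP.pg hlt
        have hRP : P ⊓ Subgroup.normalizer (Q : Set G) ≤ P := inf_le_left
        have hRN : P ⊓ Subgroup.normalizer (Q : Set G) ≤ Subgroup.normalizer (Q : Set G) :=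
          inf_le_right
        have hQR : Q ≤ P ⊓ Subgroup.normalizer (Q : Set G) :=
          le_inf hQP Subgroup.le_normalizer
        have hQRlt : Q < P ⊓ Subgroup.normalizer (Q : Set G) := by
          refine lt_of_le_of_ne hQR ?_
          intro h
          exact hxQ (by
            rw [h]
            exact ⟨hxP, hxN⟩)
        obtain ⟨a, haP, hale, _⟩ := ih (P ⊓ Subgroup.normalizer (Q : Set G)) hQRlt hRP
        obtain ⟨b, hb, hbn, _⟩ := np1 ℓ F hF G Q (P ⊓ Subgroup.normalizer (Q : Set G)) haP.pg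
          hQR hRN a haP.blk
        have hbP : Pq ℓ Q b := ⟨hQg, hb⟩
        exact ⟨b, hbP, Le.trans (Le.one hbP haP hbn) hale, fun h => absurd h hn⟩

end Pool.Agent.PP.TP.H32
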